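import Mathlib

namespace Pool.Agent.Results.MP_b57ad3_co.TwistGraphFourteen

/-- The pair `(a, b)` is a diagonal of the convex polygon with vertices `1, 2, ..., N`
(`a < b`, not a side). -/
def IsDiag (N : ℕ) (d : ℕ × ℕ) : Prop :=
  1 ≤ d.1 ∧ d.1 + 2 ≤ d.2 ∧ d.2 ≤ N ∧ ¬ (d.1 = 1 ∧ d.2 = N)

/-- Two diagonals (written with the smaller end first) cross in the interior of the polygon. -/
def Cross (d e : ℕ × ℕ) : Prop :=
  (d.1 < e.1 ∧ e.1 < d.2 ∧ d.2 < e.2) ∨ (e.1 < d.1 ∧ d.1 < e.2 ∧ e.2 < d.2)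

/-- `T` is (the set of diagonals of) a triangulation of the convex `N`-gon: a maximal set of
pairwise non-crossing diagonals. -/
def IsTriangulation (N : ℕ) (T : Finset (ℕ × ℕ)) : Prop :=
  (∀ d ∈ T, IsDiag N d) ∧ (∀ d ∈ T, ∀ e ∈ T, ¬ Cross d e) ∧
    ∀ d, IsDiag N d → (∀ e ∈ T, ¬ Cross d e) → d ∈ T

/-- `a < b` are joined by a side of the polygon or by a diagonal of `T`. -/
def IsEdge (N : ℕ) (T : Finset (ℕ × ℕ)) (a b : ℕ) : Prop :=
  1 ≤ a ∧ a < b ∧ b ≤ N ∧ (b = a + 1 ∨ (a = 1 ∧ b = N) ∨ (a, b) ∈ T)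

/-- Every triangle of `T` has one vertex of each of the three residues modulo 3. -/
def IsColorful (N : ℕ) (T : Finset (ℕ × ℕ)) : Prop :=
  ∀ a b c, IsEdge N T a b → IsEdge N T b c → IsEdge N T a c →
    a % 3 ≠ b % 3 ∧ b % 3 ≠ c % 3 ∧ a % 3 ≠ c % 3

/-- The twist at the hexagon `x₁ < x₂ < ... < x₆` whose six sides are edges of `T`: the inner
triangle `x₁x₃x₅` of `T` is replaced by `x₂x₄x₆`, or `x₂x₄x₆` by `x₁x₃x₅`. -/
def TwistAt (N : ℕ) (T T' : Finset (ℕ × ℕ)) (x₁ x₂ x₃ x₄ x₅ x₆ : ℕ) : Prop :=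
  IsEdge N T x₁ x₂ ∧ IsEdge N T x₂ x₃ ∧ IsEdge N T x₃ x₄ ∧ IsEdge N T x₄ x₅ ∧
    IsEdge N T x₅ x₆ ∧ IsEdge N T x₁ x₆ ∧
    (((x₁, x₃) ∈ T ∧ (x₃, x₅) ∈ T ∧ (x₁, x₅) ∈ T ∧
        T' = (T \ {(x₁, x₃), (x₃, x₅), (x₁, x₅)}) ∪ {(x₂, x₄), (x₄, x₆), (x₂, x₆)}) ∨
      ((x₂, x₄) ∈ T ∧ (x₄, x₆) ∈ T ∧ (x₂, x₆) ∈ T ∧
        T' = (T \ {(x₂, x₄), (x₄, x₆), (x₂, x₆)}) ∪ {(x₁, x₃), (x₃, x₅), (x₁, x₅)}))

/-- `T'` is obtained from `T` by one twist. -/
def IsTwist (N : ℕ) (T T' : Finset (ℕ × ℕ)) : Prop :=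
  ∃ x₁ x₂ x₃ x₄ x₅ x₆ : ℕ, TwistAt N T T' x₁ x₂ x₃ x₄ x₅ x₆

/-- The twist graph of the colorful triangulations of the convex `N`-gon. -/
def H (N : ℕ) : SimpleGraph {T : Finset (ℕ × ℕ) // IsTriangulation N T ∧ IsColorful N T} :=
  SimpleGraph.fromRel fun S T => IsTwist N S.1 T.1

/-! ### Structure of a triangulation -/

theorem split {N : ℕ} {T : Finset (ℕ × ℕ)} (hT : IsTriangulation N T) {i j : ℕ}
    (hij : IsEdge N T i j) (h2 : i + 2 ≤ j) :
    ∃ k, i < k ∧ k < j ∧ IsEdge N T i k ∧ IsEdge N T k j ∧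
      ∀ y, k < y → y < j → (i, y) ∉ T := by
  classical
  obtain ⟨hd, hn, hm⟩ := hT
  obtain ⟨hi1, hlt, hjN, hor⟩ := hij
  have hcr : ∀ e ∈ T, ¬ Cross (i, j) e := by
    intro e he
    rcases hor with h | h | h
    · omega
    · have := hd e he
      unfold IsDiag at this
      unfold Cross
      simp only
      omega
    · exact hn _ h e he
  have hne : ((Finset.Ioo i j).filter fun k => IsEdge N T i k).Nonempty :=
    ⟨i + 1, by
      simp only [Finset.mem_filter, Finset.mem_Ioo]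
      exact ⟨⟨by omega, by omega⟩, hi1, by omega, by omega, Or.inl rfl⟩⟩
  obtain ⟨k, hk, hmax⟩ := Finset.exists_max_image _ id hne
  simp only [Finset.mem_filter, Finset.mem_Ioo, id] at hk hmax
  obtain ⟨⟨hik, hkj⟩, hek⟩ := hk
  have hno : ∀ y, k < y → y < j → (i, y) ∉ T := by
    intro y h1 h2' h3
    have := hmax y ⟨⟨by omega, h2'⟩, hi1, by omega, by omega, Or.inr (Or.inr h3)⟩
    omega
  refine ⟨k, hik, hkj, hek, ?_, hno⟩
  refine ⟨by omega, hkj, hjN, ?_⟩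
  by_cases hs : j = k + 1
  · exact Or.inl hs
  · refine Or.inr (Or.inr (hm (k, j) ⟨by simp only; omega, by simp only; omega, hjN, by
      simp only; omega⟩ ?_))
    rintro ⟨x, y⟩ he hc
    have c1 := hcr _ he
    unfold Cross at hc c1
    simp only at hc c1
    rcases hc with hc | hc
    · omega
    · by_cases hx : x = i
      · subst hx
        exact hno y (by omega) (by omega) he
      · have hik' : (i, k) ∈ T := by
          rcases hek.2.2.2 with h | h | h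
          · omega
          · omega
          · exact h
        have c2 := hn _ hik' _ he
        unfold Cross at c2
        simp only at c2
        omega

/-- The diagonal `(a, b)` unless it is a side. -/
def side (a b : ℕ) : Finset (ℕ × ℕ) := if b = a + 1 then ∅ else {(a, b)}

/-- All colorful triangulations of the polygon `i, i+1, ..., j` (with fuel). -/
def tri : ℕ → ℕ → ℕ → List (Finset (ℕ × ℕ))
  | 0, _, _ => [∅]
  | f + 1, i, j =>
    if j < i + 2 then [∅] else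
    (List.range' (i + 1) (j - i - 1)).flatMap fun k =>
      if i % 3 ≠ k % 3 ∧ k % 3 ≠ j % 3 ∧ i % 3 ≠ j % 3 then
        (tri f i k).flatMap fun A => (tri f k j).map fun B => (side i k ∪ A) ∪ (side k j ∪ B)
      else []

/-- The diagonals of `T` inside the polygon `i, ..., j`. -/
def inner (T : Finset (ℕ × ℕ)) (i j : ℕ) : Finset (ℕ × ℕ) :=
  T.filter fun d => i ≤ d.1 ∧ d.2 ≤ j ∧ d ≠ (i, j)

theorem mem_tri {N : ℕ} {T : Finset (ℕ × ℕ)} (hT : IsTriangulation N T)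
    (hC : IsColorful N T) : ∀ f i j, IsEdge N T i j → j - i ≤ f → inner T i j ∈ tri f i j := by
  intro f
  induction f with
  | zero =>
    intro i j hij h
    exact absurd hij.2.1 (by omega)
  | succ f ih =>
    intro i j hij h
    unfold tri
    by_cases h2 : j < i + 2
    · rw [if_pos h2, List.mem_singleton]
      unfold inner
      rw [Finset.filter_eq_empty_iff]
      rintro ⟨x, y⟩ hxy hc
      have := hT.1 _ hxy
      unfold IsDiag at this
      simp only at this hc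
      omega
    · rw [if_neg h2]
      obtain ⟨k, hik, hkj, eik, ekj, hno⟩ := split hT hij (by omega)
      have hcol := hC i k j eik ekj hij
      rw [List.mem_flatMap]
      refine ⟨k, ?_, ?_⟩
      · rw [List.mem_range'_1]
        omega
      · rw [if_pos hcol, List.mem_flatMap]
        refine ⟨inner T i k, ih i k eik (by omega), ?_⟩
        rw [List.mem_map]
        refine ⟨inner T k j, ih k j ekj (by omega), ?_⟩
        have hjN := hij.2.2.1
        have h1i := hij.1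
        ext ⟨x, y⟩
        unfold side inner
        constructor
        · intro hm
          rw [Finset.mem_union, Finset.mem_union, Finset.mem_union] at hm
          rw [Finset.mem_filter]
          rcases hm with (hm | hm) | (hm | hm)
          · split_ifs at hm with hs
            · exact absurd hm (Finset.notMem_empty _)
            · rw [Finset.mem_singleton, Prod.mk.injEq] at hm
              obtain ⟨rfl, rfl⟩ := hm
              have hmem : (x, y) ∈ T := by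
                rcases eik.2.2.2 with h' | h' | h'
                · exact absurd h' hs
                · omega
                · exact h'
              refine ⟨hmem, le_refl _, by simp only; omega, ?_⟩
              rw [Ne, Prod.mk.injEq]
              omega
          · rw [Finset.mem_filter] at hm
            obtain ⟨hmem, ha, hb, -⟩ := hm
            refine ⟨hmem, ha, by simp only at hb ⊢; omega, ?_⟩
            rw [Ne, Prod.mk.injEq]
            simp only at hb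
            omega
          · split_ifs at hm with hs
            · exact absurd hm (Finset.notMem_empty _)
            · rw [Finset.mem_singleton, Prod.mk.injEq] at hm
              obtain ⟨rfl, rfl⟩ := hm
              have hmem : (x, y) ∈ T := by
                rcases ekj.2.2.2 with h' | h' | h'
                · exact absurd h' hs
                · omega
                · exact h'
              refine ⟨hmem, by simp only; omega, le_refl _, ?_⟩
              rw [Ne, Prod.mk.injEq]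
              omega
          · rw [Finset.mem_filter] at hm
            obtain ⟨hmem, ha, hb, -⟩ := hm
            refine ⟨hmem, by simp only at ha ⊢; omega, hb, ?_⟩
            rw [Ne, Prod.mk.injEq]
            simp only at ha
            omega
        · intro hm
          rw [Finset.mem_filter] at hm
          obtain ⟨hmem, ha, hb, hne⟩ := hm
          rw [Ne, Prod.mk.injEq] at hne
          simp only at ha hb
          have hdg := hT.1 _ hmem
          unfold IsDiag at hdg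
          simp only at hdg
          rw [Finset.mem_union, Finset.mem_union, Finset.mem_union]
          by_cases hyk : y ≤ k
          · left
            by_cases he : x = i ∧ y = k
            · left
              obtain ⟨rfl, rfl⟩ := he
              rw [if_neg (by omega)]
              exact Finset.mem_singleton_self _
            · right
              rw [Finset.mem_filter]
              refine ⟨hmem, ha, hyk, ?_⟩
              rw [Ne, Prod.mk.injEq]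
              exact he
          · by_cases hxk : k ≤ x
            · right
              by_cases he : x = k ∧ y = j
              · left
                obtain ⟨rfl, rfl⟩ := he
                rw [if_neg (by omega)]
                exact Finset.mem_singleton_self _
              · right
                rw [Finset.mem_filter]
                refine ⟨hmem, hxk, hb, ?_⟩
                rw [Ne, Prod.mk.injEq]
                exact he
            · exfalso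
              by_cases hx : x = i
              · subst hx
                exact hno y (by omega) (by omega) hmem
              · have hik' : (i, k) ∈ T := by
                  rcases eik.2.2.2 with h' | h' | h'
                  · omega
                  · omega
                  · exact h'
                have c2 := hT.2.1 _ hik' _ hmem
                unfold Cross at c2
                simp only at c2
                omega

theorem mem_list {N : ℕ} {T : Finset (ℕ × ℕ)} (hN : 2 ≤ N) (hT : IsTriangulation N T)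
    (hC : IsColorful N T) : T ∈ tri (N - 1) 1 N := by
  have h := mem_tri hT hC (N - 1) 1 N
    ⟨le_refl _, by omega, le_refl _, Or.inr (Or.inl ⟨rfl, rfl⟩)⟩ (le_refl _)
  have he : inner T 1 N = T := by
    unfold inner
    rw [Finset.filter_eq_self]
    rintro ⟨x, y⟩ hxy
    have := hT.1 _ hxy
    unfold IsDiag at this
    simp only at this
    refine ⟨by simp only; omega, by simp only; omega, ?_⟩
    rw [Ne, Prod.mk.injEq]
    omega
  rwa [he] at h

/-! ### The 140 colorful triangulations of the 14-gon -/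

def L : List (List (ℕ × ℕ)) :=
  [[(1, 3), (3, 14), (4, 6), (4, 14), (6, 14), (7, 9), (7, 14), (9, 14), (10, 12), (10, 14), (12, 14)],
   [(1, 3), (3, 14), (4, 6), (4, 14), (6, 14), (7, 9), (7, 14), (9, 11), (9, 13), (9, 14), (11, 13)],
   [(1, 3), (3, 14), (4, 6), (4, 14), (6, 14), (7, 12), (7, 14), (8, 10), (8, 12), (10, 12), (12, 14)],
   [(1, 3), (3, 14), (4, 6), (4, 14), (6, 14), (7, 9), (7, 11), (7, 12), (7, 14), (9, 11), (12, 14)],
   [(1, 3), (3, 14), (4, 6), (4, 14), (6, 8), (6, 10), (6, 14), (8, 10), (10, 12), (10, 14), (12, 14)],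
   [(1, 3), (3, 14), (4, 6), (4, 14), (6, 8), (6, 13), (6, 14), (8, 13), (9, 11), (9, 13), (11, 13)],
   [(1, 3), (3, 14), (4, 6), (4, 14), (6, 8), (6, 13), (6, 14), (8, 10), (8, 12), (8, 13), (10, 12)],
   [(1, 3), (3, 14), (4, 6), (4, 14), (6, 11), (6, 13), (6, 14), (7, 9), (7, 11), (9, 11), (11, 13)],
   [(1, 3), (3, 14), (4, 6), (4, 14), (6, 8), (6, 10), (6, 11), (6, 13), (6, 14), (8, 10), (11, 13)],
   [(1, 3), (3, 14), (4, 9), (4, 14), (5, 7), (5, 9), (7, 9), (9, 14), (10, 12), (10, 14), (12, 14)],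
   [(1, 3), (3, 14), (4, 9), (4, 14), (5, 7), (5, 9), (7, 9), (9, 11), (9, 13), (9, 14), (11, 13)],
   [(1, 3), (3, 14), (4, 6), (4, 8), (4, 9), (4, 14), (6, 8), (9, 14), (10, 12), (10, 14), (12, 14)],
   [(1, 3), (3, 14), (4, 6), (4, 8), (4, 9), (4, 14), (6, 8), (9, 11), (9, 13), (9, 14), (11, 13)],
   [(1, 3), (3, 14), (4, 12), (4, 14), (5, 7), (5, 12), (7, 12), (8, 10), (8, 12), (10, 12), (12, 14)],
   [(1, 3), (3, 14), (4, 12), (4, 14), (5, 7), (5, 12), (7, 9), (7, 11), (7, 12), (9, 11), (12, 14)],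
   [(1, 3), (3, 14), (4, 12), (4, 14), (5, 10), (5, 12), (6, 8), (6, 10), (8, 10), (10, 12), (12, 14)],
   [(1, 3), (3, 14), (4, 12), (4, 14), (5, 7), (5, 9), (5, 10), (5, 12), (7, 9), (10, 12), (12, 14)],
   [(1, 3), (3, 14), (4, 6), (4, 8), (4, 12), (4, 14), (6, 8), (8, 10), (8, 12), (10, 12), (12, 14)],
   [(1, 3), (3, 14), (4, 6), (4, 11), (4, 12), (4, 14), (6, 11), (7, 9), (7, 11), (9, 11), (12, 14)],
   [(1, 3), (3, 14), (4, 6), (4, 11), (4, 12), (4, 14), (6, 8), (6, 10), (6, 11), (8, 10), (12, 14)],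
   [(1, 3), (3, 14), (4, 9), (4, 11), (4, 12), (4, 14), (5, 7), (5, 9), (7, 9), (9, 11), (12, 14)],
   [(1, 3), (3, 14), (4, 6), (4, 8), (4, 9), (4, 11), (4, 12), (4, 14), (6, 8), (9, 11), (12, 14)],
   [(1, 3), (3, 5), (3, 7), (3, 14), (5, 7), (7, 9), (7, 14), (9, 14), (10, 12), (10, 14), (12, 14)],
   [(1, 3), (3, 5), (3, 7), (3, 14), (5, 7), (7, 9), (7, 14), (9, 11), (9, 13), (9, 14), (11, 13)],
   [(1, 3), (3, 5), (3, 7), (3, 14), (5, 7), (7, 12), (7, 14), (8, 10), (8, 12), (10, 12), (12, 14)],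
   [(1, 3), (3, 5), (3, 7), (3, 14), (5, 7), (7, 9), (7, 11), (7, 12), (7, 14), (9, 11), (12, 14)],
   [(1, 3), (3, 5), (3, 10), (3, 14), (5, 10), (6, 8), (6, 10), (8, 10), (10, 12), (10, 14), (12, 14)],
   [(1, 3), (3, 5), (3, 10), (3, 14), (5, 7), (5, 9), (5, 10), (7, 9), (10, 12), (10, 14), (12, 14)],
   [(1, 3), (3, 8), (3, 10), (3, 14), (4, 6), (4, 8), (6, 8), (8, 10), (10, 12), (10, 14), (12, 14)],
   [(1, 3), (3, 5), (3, 7), (3, 8), (3, 10), (3, 14), (5, 7), (8, 10), (10, 12), (10, 14), (12, 14)],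
   [(1, 3), (3, 5), (3, 13), (3, 14), (5, 13), (6, 8), (6, 13), (8, 13), (9, 11), (9, 13), (11, 13)],
   [(1, 3), (3, 5), (3, 13), (3, 14), (5, 13), (6, 8), (6, 13), (8, 10), (8, 12), (8, 13), (10, 12)],
   [(1, 3), (3, 5), (3, 13), (3, 14), (5, 13), (6, 11), (6, 13), (7, 9), (7, 11), (9, 11), (11, 13)],
   [(1, 3), (3, 5), (3, 13), (3, 14), (5, 13), (6, 8), (6, 10), (6, 11), (6, 13), (8, 10), (11, 13)],
   [(1, 3), (3, 5), (3, 13), (3, 14), (5, 7), (5, 9), (5, 13), (7, 9), (9, 11), (9, 13), (11, 13)],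
   [(1, 3), (3, 5), (3, 13), (3, 14), (5, 7), (5, 12), (5, 13), (7, 12), (8, 10), (8, 12), (10, 12)],
   [(1, 3), (3, 5), (3, 13), (3, 14), (5, 7), (5, 12), (5, 13), (7, 9), (7, 11), (7, 12), (9, 11)],
   [(1, 3), (3, 5), (3, 13), (3, 14), (5, 10), (5, 12), (5, 13), (6, 8), (6, 10), (8, 10), (10, 12)],
   [(1, 3), (3, 5), (3, 13), (3, 14), (5, 7), (5, 9), (5, 10), (5, 12), (5, 13), (7, 9), (10, 12)],
   [(1, 3), (3, 8), (3, 13), (3, 14), (4, 6), (4, 8), (6, 8), (8, 13), (9, 11), (9, 13), (11, 13)],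
   [(1, 3), (3, 8), (3, 13), (3, 14), (4, 6), (4, 8), (6, 8), (8, 10), (8, 12), (8, 13), (10, 12)],
   [(1, 3), (3, 5), (3, 7), (3, 8), (3, 13), (3, 14), (5, 7), (8, 13), (9, 11), (9, 13), (11, 13)],
   [(1, 3), (3, 5), (3, 7), (3, 8), (3, 13), (3, 14), (5, 7), (8, 10), (8, 12), (8, 13), (10, 12)],
   [(1, 3), (3, 11), (3, 13), (3, 14), (4, 6), (4, 11), (6, 11), (7, 9), (7, 11), (9, 11), (11, 13)],
   [(1, 3), (3, 11), (3, 13), (3, 14), (4, 6), (4, 11), (6, 8), (6, 10), (6, 11), (8, 10), (11, 13)],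
   [(1, 3), (3, 11), (3, 13), (3, 14), (4, 9), (4, 11), (5, 7), (5, 9), (7, 9), (9, 11), (11, 13)],
   [(1, 3), (3, 11), (3, 13), (3, 14), (4, 6), (4, 8), (4, 9), (4, 11), (6, 8), (9, 11), (11, 13)],
   [(1, 3), (3, 5), (3, 7), (3, 11), (3, 13), (3, 14), (5, 7), (7, 9), (7, 11), (9, 11), (11, 13)],
   [(1, 3), (3, 5), (3, 10), (3, 11), (3, 13), (3, 14), (5, 10), (6, 8), (6, 10), (8, 10), (11, 13)],
   [(1, 3), (3, 5), (3, 10), (3, 11), (3, 13), (3, 14), (5, 7), (5, 9), (5, 10), (7, 9), (11, 13)],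
   [(1, 3), (3, 8), (3, 10), (3, 11), (3, 13), (3, 14), (4, 6), (4, 8), (6, 8), (8, 10), (11, 13)],
   [(1, 3), (3, 5), (3, 7), (3, 8), (3, 10), (3, 11), (3, 13), (3, 14), (5, 7), (8, 10), (11, 13)],
   [(1, 6), (2, 4), (2, 6), (4, 6), (6, 14), (7, 9), (7, 14), (9, 14), (10, 12), (10, 14), (12, 14)],
   [(1, 6), (2, 4), (2, 6), (4, 6), (6, 14), (7, 9), (7, 14), (9, 11), (9, 13), (9, 14), (11, 13)],
   [(1, 6), (2, 4), (2, 6), (4, 6), (6, 14), (7, 12), (7, 14), (8, 10), (8, 12), (10, 12), (12, 14)],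
   [(1, 6), (2, 4), (2, 6), (4, 6), (6, 14), (7, 9), (7, 11), (7, 12), (7, 14), (9, 11), (12, 14)],
   [(1, 6), (2, 4), (2, 6), (4, 6), (6, 8), (6, 10), (6, 14), (8, 10), (10, 12), (10, 14), (12, 14)],
   [(1, 6), (2, 4), (2, 6), (4, 6), (6, 8), (6, 13), (6, 14), (8, 13), (9, 11), (9, 13), (11, 13)],
   [(1, 6), (2, 4), (2, 6), (4, 6), (6, 8), (6, 13), (6, 14), (8, 10), (8, 12), (8, 13), (10, 12)],
   [(1, 6), (2, 4), (2, 6), (4, 6), (6, 11), (6, 13), (6, 14), (7, 9), (7, 11), (9, 11), (11, 13)],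
   [(1, 6), (2, 4), (2, 6), (4, 6), (6, 8), (6, 10), (6, 11), (6, 13), (6, 14), (8, 10), (11, 13)],
   [(1, 3), (1, 5), (1, 6), (3, 5), (6, 14), (7, 9), (7, 14), (9, 14), (10, 12), (10, 14), (12, 14)],
   [(1, 3), (1, 5), (1, 6), (3, 5), (6, 14), (7, 9), (7, 14), (9, 11), (9, 13), (9, 14), (11, 13)],
   [(1, 3), (1, 5), (1, 6), (3, 5), (6, 14), (7, 12), (7, 14), (8, 10), (8, 12), (10, 12), (12, 14)],
   [(1, 3), (1, 5), (1, 6), (3, 5), (6, 14), (7, 9), (7, 11), (7, 12), (7, 14), (9, 11), (12, 14)],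
   [(1, 3), (1, 5), (1, 6), (3, 5), (6, 8), (6, 10), (6, 14), (8, 10), (10, 12), (10, 14), (12, 14)],
   [(1, 3), (1, 5), (1, 6), (3, 5), (6, 8), (6, 13), (6, 14), (8, 13), (9, 11), (9, 13), (11, 13)],
   [(1, 3), (1, 5), (1, 6), (3, 5), (6, 8), (6, 13), (6, 14), (8, 10), (8, 12), (8, 13), (10, 12)],
   [(1, 3), (1, 5), (1, 6), (3, 5), (6, 11), (6, 13), (6, 14), (7, 9), (7, 11), (9, 11), (11, 13)],
   [(1, 3), (1, 5), (1, 6), (3, 5), (6, 8), (6, 10), (6, 11), (6, 13), (6, 14), (8, 10), (11, 13)],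
   [(1, 9), (2, 4), (2, 9), (4, 9), (5, 7), (5, 9), (7, 9), (9, 14), (10, 12), (10, 14), (12, 14)],
   [(1, 9), (2, 4), (2, 9), (4, 9), (5, 7), (5, 9), (7, 9), (9, 11), (9, 13), (9, 14), (11, 13)],
   [(1, 9), (2, 4), (2, 9), (4, 6), (4, 8), (4, 9), (6, 8), (9, 14), (10, 12), (10, 14), (12, 14)],
   [(1, 9), (2, 4), (2, 9), (4, 6), (4, 8), (4, 9), (6, 8), (9, 11), (9, 13), (9, 14), (11, 13)],
   [(1, 9), (2, 7), (2, 9), (3, 5), (3, 7), (5, 7), (7, 9), (9, 14), (10, 12), (10, 14), (12, 14)],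
   [(1, 9), (2, 7), (2, 9), (3, 5), (3, 7), (5, 7), (7, 9), (9, 11), (9, 13), (9, 14), (11, 13)],
   [(1, 9), (2, 4), (2, 6), (2, 7), (2, 9), (4, 6), (7, 9), (9, 14), (10, 12), (10, 14), (12, 14)],
   [(1, 9), (2, 4), (2, 6), (2, 7), (2, 9), (4, 6), (7, 9), (9, 11), (9, 13), (9, 14), (11, 13)],
   [(1, 3), (1, 5), (1, 9), (3, 5), (5, 7), (5, 9), (7, 9), (9, 14), (10, 12), (10, 14), (12, 14)],
   [(1, 3), (1, 5), (1, 9), (3, 5), (5, 7), (5, 9), (7, 9), (9, 11), (9, 13), (9, 14), (11, 13)],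
   [(1, 3), (1, 8), (1, 9), (3, 8), (4, 6), (4, 8), (6, 8), (9, 14), (10, 12), (10, 14), (12, 14)],
   [(1, 3), (1, 8), (1, 9), (3, 8), (4, 6), (4, 8), (6, 8), (9, 11), (9, 13), (9, 14), (11, 13)],
   [(1, 3), (1, 8), (1, 9), (3, 5), (3, 7), (3, 8), (5, 7), (9, 14), (10, 12), (10, 14), (12, 14)],
   [(1, 3), (1, 8), (1, 9), (3, 5), (3, 7), (3, 8), (5, 7), (9, 11), (9, 13), (9, 14), (11, 13)],
   [(1, 6), (1, 8), (1, 9), (2, 4), (2, 6), (4, 6), (6, 8), (9, 14), (10, 12), (10, 14), (12, 14)],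
   [(1, 6), (1, 8), (1, 9), (2, 4), (2, 6), (4, 6), (6, 8), (9, 11), (9, 13), (9, 14), (11, 13)],
   [(1, 3), (1, 5), (1, 6), (1, 8), (1, 9), (3, 5), (6, 8), (9, 14), (10, 12), (10, 14), (12, 14)],
   [(1, 3), (1, 5), (1, 6), (1, 8), (1, 9), (3, 5), (6, 8), (9, 11), (9, 13), (9, 14), (11, 13)],
   [(1, 12), (2, 4), (2, 12), (4, 12), (5, 7), (5, 12), (7, 12), (8, 10), (8, 12), (10, 12), (12, 14)],
   [(1, 12), (2, 4), (2, 12), (4, 12), (5, 7), (5, 12), (7, 9), (7, 11), (7, 12), (9, 11), (12, 14)],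
   [(1, 12), (2, 4), (2, 12), (4, 12), (5, 10), (5, 12), (6, 8), (6, 10), (8, 10), (10, 12), (12, 14)],
   [(1, 12), (2, 4), (2, 12), (4, 12), (5, 7), (5, 9), (5, 10), (5, 12), (7, 9), (10, 12), (12, 14)],
   [(1, 12), (2, 4), (2, 12), (4, 6), (4, 8), (4, 12), (6, 8), (8, 10), (8, 12), (10, 12), (12, 14)],
   [(1, 12), (2, 4), (2, 12), (4, 6), (4, 11), (4, 12), (6, 11), (7, 9), (7, 11), (9, 11), (12, 14)],
   [(1, 12), (2, 4), (2, 12), (4, 6), (4, 11), (4, 12), (6, 8), (6, 10), (6, 11), (8, 10), (12, 14)],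
   [(1, 12), (2, 4), (2, 12), (4, 9), (4, 11), (4, 12), (5, 7), (5, 9), (7, 9), (9, 11), (12, 14)],
   [(1, 12), (2, 4), (2, 12), (4, 6), (4, 8), (4, 9), (4, 11), (4, 12), (6, 8), (9, 11), (12, 14)],
   [(1, 12), (2, 7), (2, 12), (3, 5), (3, 7), (5, 7), (7, 12), (8, 10), (8, 12), (10, 12), (12, 14)],
   [(1, 12), (2, 7), (2, 12), (3, 5), (3, 7), (5, 7), (7, 9), (7, 11), (7, 12), (9, 11), (12, 14)],
   [(1, 12), (2, 4), (2, 6), (2, 7), (2, 12), (4, 6), (7, 12), (8, 10), (8, 12), (10, 12), (12, 14)],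
   [(1, 12), (2, 4), (2, 6), (2, 7), (2, 12), (4, 6), (7, 9), (7, 11), (7, 12), (9, 11), (12, 14)],
   [(1, 12), (2, 10), (2, 12), (3, 5), (3, 10), (5, 10), (6, 8), (6, 10), (8, 10), (10, 12), (12, 14)],
   [(1, 12), (2, 10), (2, 12), (3, 5), (3, 10), (5, 7), (5, 9), (5, 10), (7, 9), (10, 12), (12, 14)],
   [(1, 12), (2, 10), (2, 12), (3, 8), (3, 10), (4, 6), (4, 8), (6, 8), (8, 10), (10, 12), (12, 14)],
   [(1, 12), (2, 10), (2, 12), (3, 5), (3, 7), (3, 8), (3, 10), (5, 7), (8, 10), (10, 12), (12, 14)],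
   [(1, 12), (2, 4), (2, 6), (2, 10), (2, 12), (4, 6), (6, 8), (6, 10), (8, 10), (10, 12), (12, 14)],
   [(1, 12), (2, 4), (2, 9), (2, 10), (2, 12), (4, 9), (5, 7), (5, 9), (7, 9), (10, 12), (12, 14)],
   [(1, 12), (2, 4), (2, 9), (2, 10), (2, 12), (4, 6), (4, 8), (4, 9), (6, 8), (10, 12), (12, 14)],
   [(1, 12), (2, 7), (2, 9), (2, 10), (2, 12), (3, 5), (3, 7), (5, 7), (7, 9), (10, 12), (12, 14)],
   [(1, 12), (2, 4), (2, 6), (2, 7), (2, 9), (2, 10), (2, 12), (4, 6), (7, 9), (10, 12), (12, 14)],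
   [(1, 3), (1, 5), (1, 12), (3, 5), (5, 7), (5, 12), (7, 12), (8, 10), (8, 12), (10, 12), (12, 14)],
   [(1, 3), (1, 5), (1, 12), (3, 5), (5, 7), (5, 12), (7, 9), (7, 11), (7, 12), (9, 11), (12, 14)],
   [(1, 3), (1, 5), (1, 12), (3, 5), (5, 10), (5, 12), (6, 8), (6, 10), (8, 10), (10, 12), (12, 14)],
   [(1, 3), (1, 5), (1, 12), (3, 5), (5, 7), (5, 9), (5, 10), (5, 12), (7, 9), (10, 12), (12, 14)],
   [(1, 3), (1, 8), (1, 12), (3, 8), (4, 6), (4, 8), (6, 8), (8, 10), (8, 12), (10, 12), (12, 14)],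
   [(1, 3), (1, 8), (1, 12), (3, 5), (3, 7), (3, 8), (5, 7), (8, 10), (8, 12), (10, 12), (12, 14)],
   [(1, 6), (1, 8), (1, 12), (2, 4), (2, 6), (4, 6), (6, 8), (8, 10), (8, 12), (10, 12), (12, 14)],
   [(1, 3), (1, 5), (1, 6), (1, 8), (1, 12), (3, 5), (6, 8), (8, 10), (8, 12), (10, 12), (12, 14)],
   [(1, 3), (1, 11), (1, 12), (3, 11), (4, 6), (4, 11), (6, 11), (7, 9), (7, 11), (9, 11), (12, 14)],
   [(1, 3), (1, 11), (1, 12), (3, 11), (4, 6), (4, 11), (6, 8), (6, 10), (6, 11), (8, 10), (12, 14)],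
   [(1, 3), (1, 11), (1, 12), (3, 11), (4, 9), (4, 11), (5, 7), (5, 9), (7, 9), (9, 11), (12, 14)],
   [(1, 3), (1, 11), (1, 12), (3, 11), (4, 6), (4, 8), (4, 9), (4, 11), (6, 8), (9, 11), (12, 14)],
   [(1, 3), (1, 11), (1, 12), (3, 5), (3, 7), (3, 11), (5, 7), (7, 9), (7, 11), (9, 11), (12, 14)],
   [(1, 3), (1, 11), (1, 12), (3, 5), (3, 10), (3, 11), (5, 10), (6, 8), (6, 10), (8, 10), (12, 14)],
   [(1, 3), (1, 11), (1, 12), (3, 5), (3, 10), (3, 11), (5, 7), (5, 9), (5, 10), (7, 9), (12, 14)],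
   [(1, 3), (1, 11), (1, 12), (3, 8), (3, 10), (3, 11), (4, 6), (4, 8), (6, 8), (8, 10), (12, 14)],
   [(1, 3), (1, 11), (1, 12), (3, 5), (3, 7), (3, 8), (3, 10), (3, 11), (5, 7), (8, 10), (12, 14)],
   [(1, 6), (1, 11), (1, 12), (2, 4), (2, 6), (4, 6), (6, 11), (7, 9), (7, 11), (9, 11), (12, 14)],
   [(1, 6), (1, 11), (1, 12), (2, 4), (2, 6), (4, 6), (6, 8), (6, 10), (6, 11), (8, 10), (12, 14)],
   [(1, 3), (1, 5), (1, 6), (1, 11), (1, 12), (3, 5), (6, 11), (7, 9), (7, 11), (9, 11), (12, 14)],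
   [(1, 3), (1, 5), (1, 6), (1, 11), (1, 12), (3, 5), (6, 8), (6, 10), (6, 11), (8, 10), (12, 14)],
   [(1, 9), (1, 11), (1, 12), (2, 4), (2, 9), (4, 9), (5, 7), (5, 9), (7, 9), (9, 11), (12, 14)],
   [(1, 9), (1, 11), (1, 12), (2, 4), (2, 9), (4, 6), (4, 8), (4, 9), (6, 8), (9, 11), (12, 14)],
   [(1, 9), (1, 11), (1, 12), (2, 7), (2, 9), (3, 5), (3, 7), (5, 7), (7, 9), (9, 11), (12, 14)],
   [(1, 9), (1, 11), (1, 12), (2, 4), (2, 6), (2, 7), (2, 9), (4, 6), (7, 9), (9, 11), (12, 14)],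
   [(1, 3), (1, 5), (1, 9), (1, 11), (1, 12), (3, 5), (5, 7), (5, 9), (7, 9), (9, 11), (12, 14)],
   [(1, 3), (1, 8), (1, 9), (1, 11), (1, 12), (3, 8), (4, 6), (4, 8), (6, 8), (9, 11), (12, 14)],
   [(1, 3), (1, 8), (1, 9), (1, 11), (1, 12), (3, 5), (3, 7), (3, 8), (5, 7), (9, 11), (12, 14)],
   [(1, 6), (1, 8), (1, 9), (1, 11), (1, 12), (2, 4), (2, 6), (4, 6), (6, 8), (9, 11), (12, 14)],
   [(1, 3), (1, 5), (1, 6), (1, 8), (1, 9), (1, 11), (1, 12), (3, 5), (6, 8), (9, 11), (12, 14)]]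

def D : List ℕ :=
  [0, 1, 4, 4, 1, 2, 3, 3, 2, 4, 5, 4, 5, 3, 4, 5, 5, 2, 5, 5, 4, 3, 1, 2, 5, 5, 2, 3, 3, 2, 3, 4, 4, 3, 4, 4, 5, 4, 5, 4, 3, 3, 4, 5, 4, 5, 4, 4, 3, 4, 4, 3, 8, 9, 11, 10, 7, 10, 11, 9, 8, 9, 10, 12, 11, 8, 11, 12, 10, 9, 3, 4, 4, 5, 6, 7, 5, 6, 2, 3, 5, 6, 6, 7, 4, 5, 3, 4, 6, 7, 4, 5, 5, 6, 5, 6, 6, 4, 5, 5, 6, 7, 8, 8, 7, 6, 7, 7, 6, 7, 6, 6, 3, 4, 4, 3, 6, 7, 7, 6, 7, 7, 6, 7, 8, 8, 7, 6, 5, 5, 4, 6, 6, 5, 6, 5, 5, 4, 7, 6]

def P : List ℕ :=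
  [0, 0, 6, 7, 0, 1, 5, 8, 4, 27, 9, 28, 11, 17, 13, 37, 20, 4, 14, 44, 21, 17, 0, 22, 42, 47, 4, 26, 29, 22, 5, 30, 33, 8, 30, 13, 35, 33, 37, 41, 17, 23, 41, 47, 48, 49, 21, 51, 26, 27, 28, 29, 56, 52, 55, 59, 116, 53, 57, 60, 56, 65, 61, 64, 68, 56, 62, 66, 69, 65, 78, 70, 70, 72, 76, 74, 84, 76, 22, 78, 72, 80, 80, 82, 86, 84, 78, 86, 92, 88, 112, 90, 114, 94, 90, 91, 92, 115, 97, 97, 99, 105, 101, 107, 108, 92, 131, 132, 133, 105, 24, 25, 26, 112, 28, 29, 99, 116, 122, 94, 95, 96, 98, 119, 123, 121, 122, 128, 130, 130, 112, 135, 136, 137, 133, 113, 114, 115, 116, 135]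

def X : List (ℕ × ℕ × ℕ × ℕ × ℕ × ℕ) :=
  [(0, 0, 0, 0, 0, 0), (9, 10, 11, 12, 13, 14), (6, 7, 8, 12, 13, 14), (6, 7, 11, 12, 13, 14), (6, 7, 8, 9, 10, 14), (6, 7, 8, 9, 13, 14), (8, 9, 10, 11, 12, 13), (6, 7, 8, 9, 10, 11), (6, 10, 11, 12, 13, 14), (3, 4, 5, 9, 10, 14), (9, 10, 11, 12, 13, 14), (3, 4, 8, 9, 10, 14), (9, 10, 11, 12, 13, 14), (4, 5, 6, 7, 8, 12), (7, 8, 9, 10, 11, 12), (3, 4, 5, 12, 13, 14), (4, 5, 9, 10, 11, 12), (4, 6, 8, 10, 12, 14), (4, 5, 6, 7, 11, 12), (3, 4, 11, 12, 13, 14), (4, 5, 6, 7, 8, 9), (4, 8, 9, 10, 11, 12), (3, 4, 5, 6, 7, 14), (9, 10, 11, 12, 13, 14), (3, 7, 8, 12, 13, 14), (3, 7, 11, 12, 13, 14), (3, 4, 5, 6, 10, 14), (5, 6, 7, 8, 9, 10), (3, 4, 5, 6, 7, 8), (3, 7, 8, 9, 10, 14), (3, 4, 5, 6, 13, 14), (8, 9, 10, 11, 12, 13), (6, 7, 8, 9, 10, 11), (3, 4, 5, 6, 13, 14), (5, 6, 7, 8, 9, 13), (3, 4, 5, 12, 13, 14), (7, 8, 9, 10, 11, 12), (5, 6, 10, 11, 12, 13), (5, 6,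 7, 8, 9, 10), (3, 4, 5, 6, 7, 8), (3, 4, 8, 12, 13, 14), (3, 7, 8, 9, 13, 14), (8, 9, 10, 11, 12, 13), (3, 4, 5, 6, 7, 11), (3, 4, 5, 6, 10, 11), (3, 4, 5, 9, 10, 11), (3, 4, 11, 12, 13, 14), (3, 7, 8, 9, 10, 11), (3, 10, 11, 12, 13, 14), (3, 10, 11, 12, 13, 14), (3, 10, 11, 12, 13, 14), (3, 10, 11, 12, 13, 14), (6, 7, 8, 9, 10, 14), (9, 10, 11, 12, 13, 14), (7, 8, 9, 10, 11, 12), (6, 7, 11, 12, 13, 14), (1, 6, 8, 10, 12, 14), (6, 7, 8, 9, 13, 14), (8, 9, 10, 11, 12, 13), (6, 7, 8, 9, 10, 11), (6, 10, 11, 12, 13, 14), (6, 7, 8, 9, 10, 14), (9, 10, 11, 12, 13, 14), (7, 8, 9, 10, 11, 12), (6, 7, 11, 12, 13, 14), (1, 2, 3, 4, 5, 6), (6, 7, 8, 9, 13, 14), (8, 9, 10, 11, 12, 13), (6, 7, 8, 9, 10, 11), (6, 10, 11, 12, 13, 14), (1, 2, 3, 4, 5, 9), (9, 10, 11, 12, 13, 14), (4, 5, 6, 7, 8, 9), (9, 10, 11, 12, 13, 14), (2, 3, 4, 5, 6, 7), (9, 10, 11, 12, 13, 14), (1, 2, 6, 7, 8, 9), (9, 10, 11, 12, 13, 14), (1,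 3, 5, 7, 9, 14), (9, 10, 11, 12, 13, 14), (1, 2, 3, 4, 8, 9), (9, 10, 11, 12, 13, 14), (3, 4, 5, 6, 7, 8), (9, 10, 11, 12, 13, 14), (1, 2, 3, 4, 5, 6), (9, 10, 11, 12, 13, 14), (1, 5, 6, 7, 8, 9), (9, 10, 11, 12, 13, 14), (4, 5, 6, 7, 8, 12), (7, 8, 9, 10, 11, 12), (1, 2, 3, 4, 5, 12), (5, 6, 7, 8, 9, 10), (1, 2, 3, 4, 8, 12), (6, 7, 8, 9, 10, 11), (4, 5, 6, 10, 11, 12), (4, 5, 9, 10, 11, 12), (4, 8, 9, 10, 11, 12), (1, 2, 3, 7, 8, 12), (7, 8, 9, 10, 11, 12), (2, 3, 4, 5, 6, 7), (7, 8, 9, 10, 11, 12), (2, 3, 4, 5, 6, 10), (5, 6, 7, 8, 9, 10), (2, 3, 4, 8, 9, 10), (2, 3, 7, 8, 9, 10), (2, 4, 6, 8, 10, 12), (1, 2, 9, 10, 11, 12), (1, 2, 9, 10, 11, 12), (1, 2, 9, 10, 11, 12), (2, 6, 7, 8, 9, 10), (1, 3, 5, 7, 12, 14), (1, 3, 5, 7, 12, 14), (1, 3, 5, 10, 12, 14), (5, 6, 7, 8, 9, 10), (1, 3, 8, 10, 12, 14), (1, 3, 8, 10, 12, 14), (1, 2, 6, 7, 8, 12), (1, 2, 3, 4, 5, 6), (3, 4, 5, 6, 7, 11), (1, 2, 3, 4, 11,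 12), (1, 2, 3, 4, 11, 12), (1, 2, 3, 4, 11, 12), (1, 2, 3, 7, 11, 12), (3, 4, 5, 6, 10, 11), (5, 6, 7, 8, 9, 10), (3, 4, 8, 9, 10, 11), (3, 7, 8, 9, 10, 11), (6, 7, 8, 9, 10, 11), (1, 2, 3, 4, 5, 6), (6, 7, 8, 9, 10, 11), (1, 5, 6, 10, 11, 12), (1, 2, 3, 4, 5, 9), (1, 2, 3, 4, 8, 9), (1, 2, 3, 7, 8, 9), (2, 3, 4, 5, 6, 7), (1, 5, 9, 10, 11, 12), (1, 8, 9, 10, 11, 12), (1, 8, 9, 10, 11, 12), (1, 8, 9, 10, 11, 12), (1, 5, 6, 7, 8, 9)]

set_option maxRecDepth 100000 in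
theorem enum : tri 13 1 14 = L.map List.toFinset := by decide +kernel

instance (N : ℕ) (d : ℕ × ℕ) : Decidable (IsDiag N d) := by unfold IsDiag; infer_instance
instance (d e : ℕ × ℕ) : Decidable (Cross d e) := by unfold Cross; infer_instance
instance (N : ℕ) (T : Finset (ℕ × ℕ)) (a b : ℕ) : Decidable (IsEdge N T a b) := by
  unfold IsEdge; infer_instance

/-- Maximality, bounded. -/
def GoodA (l : List (ℕ × ℕ)) (a b : ℕ) : Prop :=
  ¬ IsDiag 14 (a, b) ∨ (∃ e ∈ l, Cross (a, b) e) ∨ (a, b) ∈ l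

instance (l : List (ℕ × ℕ)) (a b : ℕ) : Decidable (GoodA l a b) := by
  unfold GoodA; infer_instance

/-- Colours, bounded. -/
def GoodB (l : List (ℕ × ℕ)) (a b c : ℕ) : Prop :=
  ¬ IsEdge 14 l.toFinset b c ∨ ¬ IsEdge 14 l.toFinset a c ∨
    (a % 3 ≠ b % 3 ∧ b % 3 ≠ c % 3 ∧ a % 3 ≠ c % 3)

instance (l : List (ℕ × ℕ)) (a b c : ℕ) : Decidable (GoodB l a b c) := by
  unfold GoodB; infer_instance

/-- Colours at the edge `a b`, bounded. -/
def GoodC (l : List (ℕ × ℕ)) (a b : ℕ) : Prop :=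
  ¬ IsEdge 14 l.toFinset a b ∨ ∀ c ∈ List.range 15, GoodB l a b c

instance (l : List (ℕ × ℕ)) (a b : ℕ) : Decidable (GoodC l a b) := by
  unfold GoodC; infer_instance

/-- Bounded form of the two conditions for a list of diagonals. -/
def Good (l : List (ℕ × ℕ)) : Prop :=
  (∀ d ∈ l, IsDiag 14 d) ∧ (∀ d ∈ l, ∀ e ∈ l, ¬ Cross d e) ∧
    (∀ a ∈ List.range 15, ∀ b ∈ List.range 15, GoodA l a b) ∧
    (∀ a ∈ List.range 15, ∀ b ∈ List.range 15, GoodC l a b)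

instance (l : List (ℕ × ℕ)) : Decidable (Good l) := by unfold Good; infer_instance
instance (N : ℕ) (T T' : Finset (ℕ × ℕ)) (a b c d e f : ℕ) :
    Decidable (TwistAt N T T' a b c d e f) := by unfold TwistAt; infer_instance

theorem good_all : ∀ l ∈ L, Good l := by decide +kernel

/-- The list number `i`. -/
def S (i : ℕ) : List (ℕ × ℕ) := L.getD i []

theorem step_all : ∀ i < 140, i = 0 ∨ (D.getD (P.getD i 0) 0 < D.getD i 0 ∧ P.getD i 0 < 140 ∧
    TwistAt 14 (S i).toFinset (S (P.getD i 0)).toFinset (X.getD i (0, 0, 0, 0, 0, 0)).1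
      (X.getD i (0, 0, 0, 0, 0, 0)).2.1 (X.getD i (0, 0, 0, 0, 0, 0)).2.2.1
      (X.getD i (0, 0, 0, 0, 0, 0)).2.2.2.1 (X.getD i (0, 0, 0, 0, 0, 0)).2.2.2.2.1
      (X.getD i (0, 0, 0, 0, 0, 0)).2.2.2.2.2) := by decide +kernel

theorem good_spec {l : List (ℕ × ℕ)} (h : Good l) :
    IsTriangulation 14 l.toFinset ∧ IsColorful 14 l.toFinset := by
  obtain ⟨h1, h2, h3, h4⟩ := h
  refine ⟨⟨fun d hd => h1 d (List.mem_toFinset.1 hd), fun d hd e he =>
    h2 d (List.mem_toFinset.1 hd) e (List.mem_toFinset.1 he), ?_⟩, ?_⟩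
  · rintro ⟨a, b⟩ hd hc
    have hd' := hd
    unfold IsDiag at hd'
    simp only at hd'
    rcases h3 a (List.mem_range.2 (by omega)) b (List.mem_range.2 (by omega)) with h | h | h
    · exact absurd hd h
    · obtain ⟨e, he, hce⟩ := h
      exact absurd hce (hc e (List.mem_toFinset.2 he))
    · exact List.mem_toFinset.2 h
  · intro a b c hab hbc hac
    have h5 := hab.2.2.1
    have h6 := hab.2.1
    have h7 := hac.2.2.1
    rcases h4 a (List.mem_range.2 (by omega)) b (List.mem_range.2 (by omega)) with h | h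
    · exact absurd hab h
    · rcases h c (List.mem_range.2 (by omega)) with h | h | h
      · exact absurd hbc h
      · exact absurd hac h
      · exact h

theorem length_L : L.length = 140 := by decide +kernel

theorem S_mem {i : ℕ} (hi : i < 140) : S i ∈ L := by
  unfold S
  rw [List.getD_eq_getElem _ _ (by rw [length_L]; exact hi)]
  exact List.getElem_mem _

/-- The vertex number `i` of the twist graph. -/
def vtx (i : ℕ) (hi : i < 140) :
    {T : Finset (ℕ × ℕ) // IsTriangulation 14 T ∧ IsColorful 14 T} :=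
  ⟨(S i).toFinset, good_spec (good_all _ (S_mem hi))⟩

theorem reach : ∀ n i (hi : i < 140), D.getD i 0 ≤ n →
    (H 14).Reachable (vtx 0 (by norm_num)) (vtx i hi) := by
  intro n
  induction n with
  | zero =>
    intro i hi hD
    rcases step_all i hi with h0 | ⟨h1, -, -⟩
    · subst h0
      exact SimpleGraph.Reachable.refl _
    · omega
  | succ n ih =>
    intro i hi hD
    rcases step_all i hi with h0 | ⟨h1, h2, h3⟩
    · subst h0
      exact SimpleGraph.Reachable.refl _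
    · have hr := ih (P.getD i 0) h2 (by omega)
      by_cases he : vtx (P.getD i 0) h2 = vtx i hi
      · rw [← he]
        exact hr
      · refine hr.trans (SimpleGraph.Adj.reachable ?_)
        unfold H
        rw [SimpleGraph.fromRel_adj]
        exact ⟨he, Or.inr ⟨_, _, _, _, _, _, h3⟩⟩

/-- The twist graph of the colorful triangulations of the 14-gon is connected. -/
theorem result : (H 14).Connected ∧
    ¬ ∀ N : ℕ, 8 ≤ N → N % 3 = 2 → ¬ (H N).Connected := by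
  have hc : (H 14).Connected := by
    rw [SimpleGraph.connected_iff_exists_forall_reachable]
    refine ⟨vtx 0 (by norm_num), fun w => ?_⟩
    have hw := mem_list (by norm_num) w.2.1 w.2.2
    have hw' : w.1 ∈ L.map List.toFinset := by
      rw [← enum]
      exact hw
    obtain ⟨l, hl, hlw⟩ := List.mem_map.1 hw'
    obtain ⟨i, hi, hil⟩ := List.getElem_of_mem hl
    rw [length_L] at hi
    have hS : S i = l := by
      unfold S
      rw [List.getD_eq_getElem _ _ (by rw [length_L]; exact hi)]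
      exact hil
    have hv : vtx i hi = w := by
      apply Subtype.ext
      change (S i).toFinset = w.1
      rw [hS]
      exact hlw
    rw [← hv]
    exact reach _ i hi le_rfl
  exact ⟨hc, fun h => h 14 (by norm_num) (by norm_num) hc⟩

end Pool.Agent.Results.MP_b57ad3_co.TwistGraphFourteen
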